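import Mathlib
import Pool.Agent.Q53.Median.Rook

set_option autoImplicit false

/-!
# Median eigenvalues can exceed `√(d - 1)` for graphs of average degree at most `d`

For every real `d` with `84 / 17 ≤ d < 5` there is a graph of average degree at most `d` (the
disjoint union of one `4 × 4` and two `3 × 3` rook graphs) with a median eigenvalue of absolute
value greater than `√(d - 1)`. Here `lam G k` is the `k`-th largest adjacency eigenvalue, and the
median eigenvalues of a graph on `n` vertices are those with index `⌊(n + 1) / 2⌋` and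
`⌈(n + 1) / 2⌉ = ⌊(n + 2) / 2⌋`.
-/

namespace Pool.Agent.Results.MP_17c227_co.MedianBoundFails

open Q53.Median

theorem result :
    (∀ d : ℝ, 84 / 17 ≤ d → d < 5 →
      ∃ (n : ℕ) (G : SimpleGraph (Fin n)) (_ : DecidableRel G.Adj),
        1 ≤ n ∧ avgDeg G ≤ d ∧ Real.sqrt (d - 1) < |lam G ((n + 2) / 2)|) ∧
    ¬ ∀ d : ℝ, 2 ≤ d → ∀ n : ℕ, 1 ≤ n → ∀ (G : SimpleGraph (Fin n)) [DecidableRel G.Adj],
      avgDeg G ≤ d →
        |lam G ((n + 1) / 2)| ≤ Real.sqrt (d - 1) ∧ |lam G ((n + 2) / 2)| ≤ Real.sqrt (d - 1) := by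
  have key : ∀ d : ℝ, 84 / 17 ≤ d → d < 5 →
      ∃ (n : ℕ) (G : SimpleGraph (Fin n)) (_ : DecidableRel G.Adj),
        1 ≤ n ∧ avgDeg G ≤ d ∧ Real.sqrt (d - 1) < |lam G ((n + 2) / 2)| := by
    intro d h1 h2
    refine ⟨34, rooks, inferInstance, by norm_num, ?_, ?_⟩
    · rw [avgDeg, card_edges]
      norm_num
      linarith
    · have h3 : lam rooks 18 ≤ -2 := lam_le
      have h4 : (2 : ℝ) ≤ |lam rooks ((34 + 2) / 2)| := by
        show (2 : ℝ) ≤ |lam rooks 18|
        rw [abs_of_nonpos (by linarith)]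
        linarith
      refine lt_of_lt_of_le ?_ h4
      rw [Real.sqrt_lt' (by norm_num)]
      linarith
  refine ⟨key, fun h => ?_⟩
  obtain ⟨n, G, hG, hn, hd, hl⟩ := key (84 / 17) le_rfl (by norm_num)
  exact absurd (h (84 / 17) (by norm_num) n hn G hd).2 (not_le.2 hl)

end Pool.Agent.Results.MP_17c227_co.MedianBoundFails
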